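import Pool.Agent.helper93.FR.Spec

/-!
Row Comp of the plan FR: sample compression for commutants.  The steps 1, 2, 3 of the docstring
of Comp_stmt; in step 2 the irreducible components are treated one after the other.
-/

namespace Pool.Agent.helper93.FR

open Matrix BigOperators

/-- Star intertwiners tested on S only. -/
def CompOn {κ m n : Type} [Fintype m] [Fintype n] (S : Finset κ) (y : κ → Matrix m m ℂ)
    (z : κ → Matrix n n ℂ) (h : Matrix n m ℂ) : Prop :=
  ∀ j ∈ S, h * y j = z j * h ∧ h * (y j)ᴴ = (z j)ᴴ * h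

theorem Comp_on_iff {κ m n : Type} [Fintype m] [Fintype n] (S : Finset κ)
    (y : κ → Matrix m m ℂ) (z : κ → Matrix n n ℂ) (h : Matrix n m ℂ) :
    CompOn S y z h ↔
      SInt (fun j : {j // j ∈ S} => y j.1) (fun j : {j // j ∈ S} => z j.1) h := by
  constructor
  · intro H j
    exact H j.1 j.2
  · intro H j hj
    exact H ⟨j, hj⟩

theorem Comp_irr {κ n : Type} [Fintype n] [DecidableEq n] (S : Finset κ)
    (y : κ → Matrix n n ℂ) (H : IrrOn S y) : Irr (fun j : {j // j ∈ S} => y j.1) := by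
  refine ⟨H.1, fun c hc => H.2 c fun j hj => hc ⟨j, hj⟩⟩

theorem Comp_mono {κ m n : Type} [Fintype m] [Fintype n] {S T : Finset κ} (hST : S ⊆ T)
    {y : κ → Matrix m m ℂ} {z : κ → Matrix n n ℂ} {h : Matrix n m ℂ} (H : CompOn T y z h) :
    CompOn S y z h := fun j hj => H j (hST hj)

theorem Comp_irr_mono {κ n : Type} [Fintype n] [DecidableEq n] {S T : Finset κ} (hST : S ⊆ T)
    {y : κ → Matrix n n ℂ} (H : IrrOn S y) : IrrOn T y :=
  ⟨H.1, fun c hc => H.2 c fun j hj => hc j (hST hj)⟩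

theorem Comp_symm {κ m n : Type} [Fintype m] [Fintype n] {S : Finset κ}
    {y : κ → Matrix m m ℂ} {z : κ → Matrix n n ℂ} {h : Matrix n m ℂ} (H : CompOn S y z h) :
    CompOn S z y hᴴ := by
  intro j hj
  obtain ⟨h1, h2⟩ := H j hj
  constructor
  · have := congrArg Matrix.conjTranspose h2
    simpa [Matrix.conjTranspose_mul] using this.symm
  · have := congrArg Matrix.conjTranspose h1
    simpa [Matrix.conjTranspose_mul] using this.symm

theorem Comp_trans {κ m n p : Type} [Fintype m] [Fintype n] [Fintype p] {S : Finset κ}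
    {y : κ → Matrix m m ℂ} {z : κ → Matrix n n ℂ} {w : κ → Matrix p p ℂ}
    {h : Matrix n m ℂ} {h' : Matrix p n ℂ} (H : CompOn S y z h) (H' : CompOn S z w h') :
    CompOn S y w (h' * h) := by
  intro j hj
  obtain ⟨h1, h2⟩ := H j hj
  obtain ⟨h3, h4⟩ := H' j hj
  constructor
  · rw [Matrix.mul_assoc, h1, ← Matrix.mul_assoc, h3, Matrix.mul_assoc]
  · rw [Matrix.mul_assoc, h2, ← Matrix.mul_assoc, h4, Matrix.mul_assoc]

theorem Comp_nz (hS : Sch_stmt) {κ m n p : Type} [Fintype m] [Fintype n] [Fintype p]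
    [DecidableEq n] [DecidableEq p] {S : Finset κ}
    {z : κ → Matrix n n ℂ} {w : κ → Matrix p p ℂ}
    {h : Matrix n m ℂ} {h' : Matrix p n ℂ} (hz : IrrOn S z) (hw : IrrOn S w)
    (h0 : h ≠ 0) (H' : CompOn S z w h') (h0' : h' ≠ 0) : h' * h ≠ 0 := by
  obtain ⟨⟨c, hc, hc1, hc2⟩, -⟩ := hS _ n p _ _ h' (Comp_irr S z hz) (Comp_irr S w hw)
    ((Comp_on_iff S z w h').1 H') h0'
  intro hh
  apply h0
  have h1 : h'ᴴ * (h' * h) = (c : ℂ) • h := by
    rw [← Matrix.mul_assoc, hc1, Matrix.smul_mul, Matrix.one_mul]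
  rw [hh, Matrix.mul_zero] at h1
  rcases smul_eq_zero.1 h1.symm with h2 | h2
  · exact absurd (Complex.ofReal_eq_zero.1 h2) hc.ne'
  · exact h2

/-- An intertwiner on S is one on T as soon as there is a nonzero one on T. -/
theorem Comp_up (hS : Sch_stmt) {κ m n : Type} [Fintype m] [Fintype n]
    [DecidableEq m] [DecidableEq n] {S T : Finset κ} (hST : S ⊆ T)
    {y : κ → Matrix m m ℂ} {z : κ → Matrix n n ℂ} (hy : IrrOn S y) (hz : IrrOn S z)
    {h g : Matrix n m ℂ} (H : CompOn T y z h) (h0 : h ≠ 0) (G : CompOn S y z g) :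
    CompOn T y z g := by
  obtain ⟨-, h1⟩ := hS _ m n _ _ h (Comp_irr S y hy) (Comp_irr S z hz)
    ((Comp_on_iff S y z h).1 (Comp_mono hST H)) h0
  obtain ⟨t, ht⟩ := h1 g ((Comp_on_iff S y z g).1 G)
  intro j hj
  obtain ⟨h3, h4⟩ := H j hj
  rw [ht]
  constructor
  · rw [Matrix.smul_mul, h3, Matrix.mul_smul]
  · rw [Matrix.smul_mul, h4, Matrix.mul_smul]

/-- Step 2: the classes are separated one after the other. -/
theorem Comp_classes (hS : Sch_stmt) {κ : Type} {g : ℕ} (d : Fin g → ℕ)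
    (z : ∀ k, κ → Matrix (Fin (d k)) (Fin (d k)) ℂ) (Γ S' : Finset κ) (hS' : S' ⊆ Γ)
    (hirr : ∀ k, IrrOn S' (z k)) (t : ℕ) :
    ∃ S : Finset κ, S' ⊆ S ∧ S ⊆ Γ ∧ S.card ≤ S'.card + t ∧
      ∀ k l : Fin g, (k : ℕ) < t → (l : ℕ) < t → ∀ h, CompOn S (z k) (z l) h → h ≠ 0 →
        ∃ h', CompOn Γ (z k) (z l) h' ∧ h' ≠ 0 := by
  classical
  induction t with
  | zero =>
    exact ⟨S', subset_refl _, hS', by simp, fun k l hk => absurd hk (Nat.not_lt_zero _)⟩
  | succ t ih =>
    obtain ⟨S, h1, h2, h3, h4⟩ := ih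
    by_cases htg : t < g
    swap
    · refine ⟨S, h1, h2, by omega, fun k l hk hl => h4 k l ?_ ?_⟩
      · have := k.2
        omega
      · have := l.2
        omega
    have hone : ∀ (S₁ : Finset κ) (k : Fin g), CompOn S₁ (z k) (z k) 1 := by
      intro S₁ k j hj
      simp
    have hone0 : ∀ k : Fin g, (1 : Matrix (Fin (d k)) (Fin (d k)) ℂ) ≠ 0 := by
      intro k
      have := (hirr k).1
      exact one_ne_zero
    -- the new index
    set T : Fin g := ⟨t, htg⟩ with hT
    by_cases hA : ∃ k : Fin g, (k : ℕ) < t ∧ (∃ h, CompOn S (z k) (z T) h ∧ h ≠ 0) ∧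
        ¬ ∃ h, CompOn Γ (z k) (z T) h ∧ h ≠ 0
    · obtain ⟨k₀, hk₀, ⟨h, hh, hh0⟩, hno⟩ := hA
      -- some element of Γ breaks h
      have hbr : ∃ j ∈ Γ, ¬ (h * z k₀ j = z T j * h ∧ h * (z k₀ j)ᴴ = (z T j)ᴴ * h) := by
        by_contra hcon
        push Not at hcon
        apply hno
        refine ⟨h, fun j hj => ?_, hh0⟩
        by_contra hc
        exact hc ⟨(hcon j hj).1, (hcon j hj).2⟩
      obtain ⟨j, hj, hjb⟩ := hbr
      have hSS : S ⊆ insert j S := Finset.subset_insert _ _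
      have hirrS : ∀ k, IrrOn S (z k) := fun k => Comp_irr_mono h1 (hirr k)
      have hirrSj : ∀ k, IrrOn (insert j S) (z k) := fun k => Comp_irr_mono hSS (hirrS k)
      -- no nonzero intertwiner k₀ → T on insert j S
      have hk₀T : ∀ h₁, CompOn (insert j S) (z k₀) (z T) h₁ → h₁ = 0 := by
        intro h₁ hh₁
        by_contra hne
        have := Comp_up hS hSS (hirrS k₀) (hirrS T) hh₁ hne hh
        exact hjb (this j (Finset.mem_insert_self _ _))
      -- for every k < t
      have hkT : ∀ k : Fin g, (k : ℕ) < t → ∀ h₁, CompOn (insert j S) (z k) (z T) h₁ →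
          h₁ = 0 := by
        intro k hk h₁ hh₁
        by_contra hne
        -- k₀ → T → k on S
        have hc1 : CompOn S (z k₀) (z k) (h₁ᴴ * h) :=
          Comp_trans hh (Comp_symm (Comp_mono hSS hh₁))
        have hne' : h₁ᴴ ≠ 0 := by
          intro h0
          exact hne (Matrix.conjTranspose_eq_zero.1 h0)
        have hc0 : h₁ᴴ * h ≠ 0 := Comp_nz hS (hirrS T) (hirrS k) hh0
          (Comp_symm (Comp_mono hSS hh₁)) hne'
        obtain ⟨h₂, hh₂, hh₂0⟩ := h4 k₀ k hk₀ hk _ hc1 hc0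
        have hsub : insert j S ⊆ Γ := Finset.insert_subset hj h2
        have hz0 := hk₀T (h₁ * h₂) (Comp_trans (Comp_mono hsub hh₂) hh₁)
        exact Comp_nz hS (hirrSj k) (hirrSj T) hh₂0 hh₁ hne hz0
      refine ⟨insert j S, h1.trans hSS, Finset.insert_subset hj h2,
        (Finset.card_insert_le _ _).trans (by omega), ?_⟩
      intro k l hk hl h₁ hh₁ hne
      rcases Nat.lt_succ_iff_lt_or_eq.1 hk with hk' | hk'
      · rcases Nat.lt_succ_iff_lt_or_eq.1 hl with hl' | hl'
        · exact h4 k l hk' hl' h₁ (Comp_mono hSS hh₁) hne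
        · have : l = T := Fin.ext hl'
          subst this
          exact absurd (hkT k hk' h₁ hh₁) hne
      · have hkT' : k = T := Fin.ext hk'
        subst hkT'
        rcases Nat.lt_succ_iff_lt_or_eq.1 hl with hl' | hl'
        · have h5 := hkT l hl' h₁ᴴ (Comp_symm hh₁)
          exact absurd (Matrix.conjTranspose_eq_zero.1 h5) hne
        · have : l = T := Fin.ext hl'
          subst this
          exact ⟨1, hone Γ _, hone0 _⟩
    · push Not at hA
      refine ⟨S, h1, h2, by omega, ?_⟩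
      intro k l hk hl h₁ hh₁ hne
      rcases Nat.lt_succ_iff_lt_or_eq.1 hk with hk' | hk'
      · rcases Nat.lt_succ_iff_lt_or_eq.1 hl with hl' | hl'
        · exact h4 k l hk' hl' h₁ hh₁ hne
        · have : l = T := Fin.ext hl'
          subst this
          exact hA k hk' ⟨h₁, hh₁, hne⟩
      · have hkT' : k = T := Fin.ext hk'
        subst hkT'
        rcases Nat.lt_succ_iff_lt_or_eq.1 hl with hl' | hl'
        · have hne' : h₁ᴴ ≠ 0 := by
            intro h0
            exact hne (Matrix.conjTranspose_eq_zero.1 h0)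
          obtain ⟨h₂, hh₂, hh₂0⟩ := hA l hl' ⟨h₁ᴴ, Comp_symm hh₁, hne'⟩
          exact ⟨h₂ᴴ, Comp_symm hh₂, fun h0 => hh₂0 (Matrix.conjTranspose_eq_zero.1 h0)⟩
        · have : l = T := Fin.ext hl'
          subst this
          exact ⟨1, hone Γ _, hone0 _⟩

/-- The case of matrices indexed by Fin n. -/
theorem Comp_fin (hS : Sch_stmt) (hD : Dec_stmt) (hC : Comp1_stmt) (κ : Type) (n : ℕ)
    (y : κ → Matrix (Fin n) (Fin n) ℂ) (Γ : Finset κ) :
    ∃ S ⊆ Γ, S.card ≤ 2 * n ∧ ∀ c : Matrix (Fin n) (Fin n) ℂ,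
      (∀ j ∈ S, c * y j = y j * c ∧ c * (y j)ᴴ = (y j)ᴴ * c) →
        ∀ j ∈ Γ, c * y j = y j * c ∧ c * (y j)ᴴ = (y j)ᴴ * c := by
  classical
  obtain ⟨g, d, J, z, hJ1, -, hJs, hirr, hint, hd, -⟩ :=
    hD κ n (fun j => if j ∈ Γ then y j else 0)
  -- outside Γ the components vanish
  have hz0 : ∀ k j, j ∉ Γ → z k j = 0 := by
    intro k j hj
    have h1 := (hint k j).1
    simp only [if_neg hj, Matrix.zero_mul] at h1
    have h2 : (J k)ᴴ * (J k * z k j) = z k j := by
      rw [← Matrix.mul_assoc, hJ1, Matrix.one_mul]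
    rw [h1, Matrix.mul_zero] at h2
    exact h2.symm
  have hirrΓ : ∀ k, IrrOn Γ (z k) := by
    intro k
    refine ⟨(hirr k).1, fun c hc => (hirr k).2 c fun j => ?_⟩
    by_cases hj : j ∈ Γ
    · exact hc j hj
    · simp [hz0 k j hj]
  have hintΓ : ∀ k, ∀ j ∈ Γ, J k * z k j = y j * J k ∧ J k * (z k j)ᴴ = (y j)ᴴ * J k := by
    intro k j hj
    have h1 := hint k j
    simpa only [if_pos hj] using h1
  choose Sk hSk hSkc hSki using fun k => hC κ (d k) (z k) Γ (hirrΓ k)
  set S' : Finset κ := Finset.univ.biUnion Sk with hS'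
  have hS'Γ : S' ⊆ Γ := by
    intro j hj
    obtain ⟨k, -, hk⟩ := Finset.mem_biUnion.1 hj
    exact hSk k hk
  have hirr' : ∀ k, IrrOn S' (z k) := fun k =>
    Comp_irr_mono (Finset.subset_biUnion_of_mem Sk (Finset.mem_univ k)) (hSki k)
  have hdpos : ∀ k, 1 ≤ d k := by
    intro k
    obtain ⟨x⟩ := (hirr k).1
    have := x.2
    omega
  have hcard : S'.card + g ≤ 2 * n := by
    have h1 : S'.card ≤ ∑ k : Fin g, 2 * (d k - 1) :=
      Finset.card_biUnion_le.trans (Finset.sum_le_sum fun k _ => hSkc k)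
    have h2 : ∑ k : Fin g, 2 * (d k - 1) + ∑ k : Fin g, 1 ≤ ∑ k : Fin g, 2 * d k := by
      rw [← Finset.sum_add_distrib]
      refine Finset.sum_le_sum fun k _ => ?_
      have := hdpos k
      omega
    have h3 : ∑ k : Fin g, 2 * d k = 2 * n := by
      rw [← Finset.mul_sum, hd]
    rw [h3] at h2
    simp only [Finset.sum_const, Finset.card_univ, Fintype.card_fin, smul_eq_mul, mul_one] at h2
    omega
  obtain ⟨S, h1, h2, h3, h4⟩ := Comp_classes hS d z Γ S' hS'Γ hirr' g
  refine ⟨S, h2, h3.trans hcard, ?_⟩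
  intro c hc
  -- the corners of c
  have hcorner : ∀ k l, CompOn S (z k) (z l) ((J l)ᴴ * c * J k) := by
    intro k l j hj
    have hjΓ := h2 hj
    obtain ⟨c1, c2⟩ := hc j hj
    obtain ⟨a1, a2⟩ := hintΓ k j hjΓ
    obtain ⟨b1, b2⟩ := hintΓ l j hjΓ
    have b1' : (J l)ᴴ * (y j)ᴴ = (z l j)ᴴ * (J l)ᴴ := by
      have := congrArg Matrix.conjTranspose b1
      simpa [Matrix.conjTranspose_mul] using this.symm
    have b2' : (J l)ᴴ * y j = z l j * (J l)ᴴ := by
      have := congrArg Matrix.conjTranspose b2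
      simpa [Matrix.conjTranspose_mul] using this.symm
    constructor
    · calc (J l)ᴴ * c * J k * z k j = (J l)ᴴ * c * (J k * z k j) := by
            rw [Matrix.mul_assoc]
        _ = (J l)ᴴ * (c * y j) * J k := by
            rw [a1]
            simp only [Matrix.mul_assoc]
        _ = (J l)ᴴ * y j * (c * J k) := by
            rw [c1]
            simp only [Matrix.mul_assoc]
        _ = z l j * ((J l)ᴴ * c * J k) := by
            rw [b2']
            simp only [Matrix.mul_assoc]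
    · calc (J l)ᴴ * c * J k * (z k j)ᴴ = (J l)ᴴ * c * (J k * (z k j)ᴴ) := by
            rw [Matrix.mul_assoc]
        _ = (J l)ᴴ * (c * (y j)ᴴ) * J k := by
            rw [a2]
            simp only [Matrix.mul_assoc]
        _ = (J l)ᴴ * (y j)ᴴ * (c * J k) := by
            rw [c2]
            simp only [Matrix.mul_assoc]
        _ = (z l j)ᴴ * ((J l)ᴴ * c * J k) := by
            rw [b1']
            simp only [Matrix.mul_assoc]
  have hirrS : ∀ k, IrrOn S (z k) := fun k => Comp_irr_mono h1 (hirr' k)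
  have hcornerΓ : ∀ k l, CompOn Γ (z k) (z l) ((J l)ᴴ * c * J k) := by
    intro k l
    by_cases h0 : (J l)ᴴ * c * J k = 0
    · intro j _
      rw [h0]
      simp
    · obtain ⟨h', hh', hh0'⟩ := h4 k l k.2 l.2 _ (hcorner k l) h0
      exact Comp_up hS h2 (hirrS k) (hirrS l) hh' hh0' (hcorner k l)
  -- a matrix with vanishing corners vanishes
  have hvan : ∀ M : Matrix (Fin n) (Fin n) ℂ, (∀ k l, (J l)ᴴ * M * J k = 0) → M = 0 := by
    intro M hM
    have h5 : (∑ l, J l * (J l)ᴴ) * M * (∑ k, J k * (J k)ᴴ) = 0 := by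
      rw [Finset.sum_mul, Finset.sum_mul]
      refine Finset.sum_eq_zero fun l _ => ?_
      rw [Finset.mul_sum]
      refine Finset.sum_eq_zero fun k _ => ?_
      have h6 : J l * (J l)ᴴ * M * (J k * (J k)ᴴ) = J l * ((J l)ᴴ * M * J k) * (J k)ᴴ := by
        simp only [Matrix.mul_assoc]
      rw [h6, hM, Matrix.mul_zero, Matrix.zero_mul]
    rw [hJs, Matrix.one_mul, Matrix.mul_one] at h5
    exact h5
  intro j hj
  have hb1 : ∀ l, (J l)ᴴ * (y j)ᴴ = (z l j)ᴴ * (J l)ᴴ := by
    intro l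
    have := congrArg Matrix.conjTranspose (hintΓ l j hj).1
    simpa [Matrix.conjTranspose_mul] using this.symm
  have hb2 : ∀ l, (J l)ᴴ * y j = z l j * (J l)ᴴ := by
    intro l
    have := congrArg Matrix.conjTranspose (hintΓ l j hj).2
    simpa [Matrix.conjTranspose_mul] using this.symm
  constructor
  · refine sub_eq_zero.1 (hvan _ fun k l => ?_)
    rw [Matrix.mul_sub, Matrix.sub_mul, sub_eq_zero]
    calc (J l)ᴴ * (c * y j) * J k = (J l)ᴴ * c * (y j * J k) := by
          simp only [Matrix.mul_assoc]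
      _ = (J l)ᴴ * c * J k * z k j := by
          rw [← (hintΓ k j hj).1]
          simp only [Matrix.mul_assoc]
      _ = z l j * ((J l)ᴴ * c * J k) := (hcornerΓ k l j hj).1
      _ = (z l j * (J l)ᴴ) * c * J k := by
          simp only [Matrix.mul_assoc]
      _ = (J l)ᴴ * (y j * c) * J k := by
          rw [← hb2]
          simp only [Matrix.mul_assoc]
  · refine sub_eq_zero.1 (hvan _ fun k l => ?_)
    rw [Matrix.mul_sub, Matrix.sub_mul, sub_eq_zero]
    calc (J l)ᴴ * (c * (y j)ᴴ) * J k = (J l)ᴴ * c * ((y j)ᴴ * J k) := by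
          simp only [Matrix.mul_assoc]
      _ = (J l)ᴴ * c * J k * (z k j)ᴴ := by
          rw [← (hintΓ k j hj).2]
          simp only [Matrix.mul_assoc]
      _ = (z l j)ᴴ * ((J l)ᴴ * c * J k) := (hcornerΓ k l j hj).2
      _ = ((z l j)ᴴ * (J l)ᴴ) * c * J k := by
          simp only [Matrix.mul_assoc]
      _ = (J l)ᴴ * ((y j)ᴴ * c) * J k := by
          rw [← hb1]
          simp only [Matrix.mul_assoc]

theorem Comp (hS : Sch_stmt) (hD : Dec_stmt) (hC : Comp1_stmt) : Comp_stmt := by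
  intro κ m _ _ y Γ
  classical
  let e : m ≃ Fin (Fintype.card m) := Fintype.equivFin m
  obtain ⟨S, h1, h2, h3⟩ := Comp_fin hS hD hC κ (Fintype.card m)
    (fun j => (y j).submatrix e.symm e.symm) Γ
  refine ⟨S, h1, h2, fun c hc j hj => ?_⟩
  have key : ∀ M N : Matrix m m ℂ,
      (M * N).submatrix e.symm e.symm = M.submatrix e.symm e.symm * N.submatrix e.symm e.symm :=
    fun M N => (Matrix.submatrix_mul_equiv M N e.symm e.symm e.symm).symm
  have inj : ∀ M N : Matrix m m ℂ, M.submatrix e.symm e.symm = N.submatrix e.symm e.symm →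
      M = N := by
    intro M N h
    ext a b
    have := congrFun (congrFun h (e a)) (e b)
    simpa using this
  have hc' := h3 (c.submatrix e.symm e.symm) (by
    intro i hi
    obtain ⟨c1, c2⟩ := hc i hi
    constructor
    · rw [← key, ← key, c1]
    · rw [Matrix.conjTranspose_submatrix, ← key, ← key, c2]) j hj
  obtain ⟨d1, d2⟩ := hc'
  constructor
  · apply inj
    rw [key, key]
    exact d1
  · apply inj
    rw [key, key]
    rw [Matrix.conjTranspose_submatrix] at d2
    exact d2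

end Pool.Agent.helper93.FR
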